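import Mathlib
import Pool.Agent.Y728.AK.Bridge

/-!
# Points twisted by a power of two

For a point `y` of a number field of small defect, the point `x = 2 ^ k y` has height close to
`hgt y + k d log 2` and a small radical.
-/

set_option autoImplicit false

namespace Pool.Agent.T6.H44.HOE

open Finset NumberField IsDedekindDomain Pool.Agent.H691R3 Pool.Agent.TH876.Loc
open Pool.Agent.TH876.KR (log_Nv_pos' side df_eq_zero side_uniq mem_sp_iff mem_side gd_eq log_nn
  df_int lg_mul)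
open Pool.Agent.Y728 (sum_mult)

variable {K : Type} [Field K] [NumberField K]

theorem two_ne' : (2 : K) ≠ 0 := two_ne_zero

variable (K) in
/-- the primes over `2` -/
noncomputable def S2 : Finset (Pr K) := (fv_support_finite (two_ne' (K := K))).toFinset

theorem mem_S2 (v : Pr K) : v ∈ S2 K ↔ fv v (2 : K) ≠ 1 := by
  unfold S2
  rw [Set.Finite.mem_toFinset]
  exact Iff.rfl

variable (K) in
/-- the total of the primes over `2` -/
noncomputable def A2 : ℝ := ∑ v ∈ S2 K, Real.log (Nv v)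

theorem A2_nonneg : 0 ≤ A2 K := Finset.sum_nonneg fun v _ => (log_Nv_pos' v).le

theorem mx_le_gd (v : Pl K) {y : K} (hy : Pt y) : mx v y ≤ gd v y := by
  have h := df_le_gd v 1 hy
  unfold df at h
  have h1 : lg v (L 1 y) = 0 := by
    show lg v (1 : K) = 0
    exact lg_one v
  rw [h1, sub_zero] at h
  exact h

/-- the primes of a point contribute at least `log N v` to the defect -/
theorem log_le_df {x : K} (hx : Pt x) {v : Pr K} {i : Fin 3}
    (h : 0 < df (Sum.inr v : Pl K) i x) : Real.log (Nv v) ≤ df (Sum.inr v : Pl K) i x := by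
  obtain ⟨m, hm⟩ := df_int hx v i
  have hN := log_Nv_pos' v
  rw [hm] at h ⊢
  have h6 : 1 ≤ m := by
    rcases Nat.eq_zero_or_pos m with h0 | h0
    · rw [h0, Nat.cast_zero, zero_mul] at h
      exact absurd h (lt_irrefl _)
    · exact h0
  have h7 : (1 : ℝ) ≤ m := by exact_mod_cast h6
  exact le_mul_of_one_le_left hN.le h7

theorem log_le_gd {x : K} (hx : Pt x) {v : Pr K} (hv : v ∈ sp x) :
    Real.log (Nv v) ≤ gd (Sum.inr v : Pl K) x := by
  obtain ⟨i, hi⟩ := (mem_sp_iff hx v).1 hv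
  rw [gd_eq hx hi]
  exact log_le_df hx ((mem_side hx).1 hi)

/-- the defects at infinity and over `2` -/
theorem gd_S_le {y : K} (hy : Pt y) :
    ∑ w : InfinitePlace K, gd (Sum.inl w : Pl K) y + ∑ v ∈ S2 K, gd (Sum.inr v : Pl K) y ≤
      (3 * hgt y - Real.log (nn (sp y))) + A2 K := by
  classical
  have hV : sp y ⊆ sp y ∪ S2 K := Finset.subset_union_left
  have h1 := sum_gd hy hV
  rw [sum_Spl] at h1
  have h2 : S2 K ⊆ sp y ∪ S2 K := Finset.subset_union_right
  have h3 := Finset.sum_sdiff (f := fun v => gd (Sum.inr v : Pl K) y) h2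
  have h4 : Real.log (nn (sp y)) - A2 K ≤
      ∑ v ∈ (sp y ∪ S2 K) \ S2 K, gd (Sum.inr v : Pl K) y := by
    have h5 : ∑ v ∈ sp y \ S2 K, Real.log (Nv v) ≤
        ∑ v ∈ (sp y ∪ S2 K) \ S2 K, gd (Sum.inr v : Pl K) y := by
      rw [Finset.union_sdiff_right]
      refine Finset.sum_le_sum fun v hv => ?_
      exact log_le_gd hy (Finset.mem_sdiff.1 hv).1
    have h6 : Real.log (nn (sp y)) = ∑ v ∈ sp y \ S2 K, Real.log (Nv v) +
        ∑ v ∈ sp y ∩ S2 K, Real.log (Nv v) := by
      rw [log_nn, add_comm]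
      exact (Finset.sum_inter_add_sum_sdiff (sp y) (S2 K) _).symm
    have h7 : ∑ v ∈ sp y ∩ S2 K, Real.log (Nv v) ≤ A2 K := by
      refine Finset.sum_le_sum_of_subset_of_nonneg Finset.inter_subset_right fun v _ _ => ?_
      exact (log_Nv_pos' v).le
    linarith
  linarith

/-- the absolute value of a power of two at an infinite place -/
theorem inl_two (w : InfinitePlace K) : w (2 : K) = 2 := by
  rw [← InfinitePlace.norm_embedding_eq w (2 : K), map_ofNat]
  norm_num

theorem lg_inl_two (w : InfinitePlace K) (k : ℕ) :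
    lg (Sum.inl w : Pl K) ((2 : K) ^ k) = w.mult * (k * Real.log 2) := by
  show (w.mult : ℝ) * Real.log (w ((2 : K) ^ k)) = _
  rw [map_pow, Real.log_pow, inl_two]

theorem fv_two_le (v : Pr K) : fv v (2 : K) ≤ 1 := by
  have := fv_natCast_le v 2
  exact_mod_cast this

theorem fv_add_le (v : Pr K) (a b : K) : fv v (a + b) ≤ max (fv v a) (fv v b) := by
  have h := av_add (Sum.inr v : Pl K) a b
  have h1 : cv (Sum.inr v : Pl K) = 1 := rfl
  rw [h1, one_mul] at h
  exact h

theorem fv_L_two (v : Pr K) (x : K) : fv v (L 2 x) = fv v (x + 1) := by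
  show fv v (-x - 1) = _
  have h : -x - 1 = -(x + 1) := by ring
  rw [h, (fv v).map_neg]

/-- the maximum at a finite place -/
theorem M_inr (v : Pr K) (x : K) : M (Sum.inr v : Pl K) x = max (fv v x) 1 := by
  have h : M (Sum.inr v : Pl K) x = max (fv v (L 0 x)) (max (fv v (L 1 x)) (fv v (L 2 x))) := rfl
  have h1 : fv v (L 1 x) = 1 := by
    show fv v (1 : K) = 1
    exact map_one _
  rw [h, fv_L_two, h1]
  have h2 : fv v (L 0 x) = fv v x := rfl
  rw [h2]
  refine le_antisymm (max_le (le_max_left _ _) (max_le (le_max_right _ _) ?_))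
    (max_le (le_max_left _ _) (le_max_of_le_right (le_max_left _ _)))
  have h3 := fv_add_le v x 1
  rwa [map_one] at h3

variable {y : K} {k : ℕ}

theorem mx_inr_le (v : Pr K) : mx (Sum.inr v : Pl K) ((2 : K) ^ k * y) ≤ mx (Sum.inr v : Pl K) y := by
  show 1 * Real.log (M (Sum.inr v : Pl K) ((2 : K) ^ k * y)) ≤ 1 * Real.log (M (Sum.inr v : Pl K) y)
  rw [one_mul, one_mul]
  refine Real.log_le_log (lt_of_lt_of_le one_pos (one_le_M _ _)) ?_
  rw [M_inr, M_inr]
  refine max_le_max ?_ le_rfl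
  rw [map_mul, map_pow]
  exact mul_le_of_le_one_left ((fv v).nonneg _) (pow_le_one₀ ((fv v).nonneg _) (fv_two_le v))

theorem fv_twist {v : Pr K} (hv : v ∉ S2 K) : fv v ((2 : K) ^ k * y) = fv v y := by
  rw [mem_S2, not_not] at hv
  rw [map_mul, map_pow, hv, one_pow, one_mul]

theorem mx_inr_eq {v : Pr K} (hv : v ∉ S2 K) :
    mx (Sum.inr v : Pl K) ((2 : K) ^ k * y) = mx (Sum.inr v : Pl K) y := by
  show 1 * Real.log (M (Sum.inr v : Pl K) ((2 : K) ^ k * y)) = 1 * Real.log (M (Sum.inr v : Pl K) y)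
  rw [M_inr, M_inr, fv_twist hv]

theorem mx_inl_le (w : InfinitePlace K) : mx (Sum.inl w : Pl K) ((2 : K) ^ k * y) ≤
    w.mult * ((k + 1) * Real.log 2) + mx (Sum.inl w : Pl K) y := by
  have hM := one_le_M (Sum.inl w : Pl K) y
  have hM0 : 0 < M (Sum.inl w : Pl K) y := by linarith
  have h0 : w y ≤ M (Sum.inl w : Pl K) y := av_L_le (Sum.inl w : Pl K) y 0
  have h2 : w ((2 : K) ^ k * y) = 2 ^ k * w y := by rw [map_mul, map_pow, inl_two]
  have hk : (1 : ℝ) ≤ 2 ^ k := one_le_pow₀ (by norm_num)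
  have h3 : M (Sum.inl w : Pl K) ((2 : K) ^ k * y) ≤ 2 ^ (k + 1) * M (Sum.inl w : Pl K) y := by
    obtain ⟨i, hi⟩ := M_attained (Sum.inl w : Pl K) ((2 : K) ^ k * y)
    rw [hi]
    have e0 : 2 ^ k * w y ≤ 2 ^ k * M (Sum.inl w : Pl K) y := mul_le_mul_of_nonneg_left h0 (by positivity)
    have e1 : (1 : ℝ) ≤ 2 ^ k * M (Sum.inl w : Pl K) y := one_le_mul_of_one_le_of_one_le hk hM
    have e2 : (2 : ℝ) ^ (k + 1) * M (Sum.inl w : Pl K) y =
        2 ^ k * M (Sum.inl w : Pl K) y + 2 ^ k * M (Sum.inl w : Pl K) y := by ring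
    rw [e2]
    fin_cases i
    · show w ((2 : K) ^ k * y) ≤ _
      rw [h2]
      linarith
    · show w (1 : K) ≤ _
      rw [map_one]
      linarith
    · show w (-((2 : K) ^ k * y) - 1) ≤ _
      have e3 : w (-((2 : K) ^ k * y) - 1) ≤ w (-((2 : K) ^ k * y)) + w 1 := by
        have := w.1.sub_le_add (-((2 : K) ^ k * y)) 1
        exact this
      have e4 : w (-((2 : K) ^ k * y)) = w ((2 : K) ^ k * y) := w.1.map_neg _
      rw [e4, h2, map_one] at e3
      linarith
  show (w.mult : ℝ) * Real.log (M (Sum.inl w : Pl K) ((2 : K) ^ k * y)) ≤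
    _ + (w.mult : ℝ) * Real.log (M (Sum.inl w : Pl K) y)
  rw [← mul_add]
  refine mul_le_mul_of_nonneg_left ?_ (Nat.cast_nonneg _)
  have h4 := Real.log_le_log (lt_of_lt_of_le one_pos (one_le_M _ _)) h3
  rw [Real.log_mul (by positivity) hM0.ne', Real.log_pow] at h4
  push_cast at h4
  exact h4

theorem le_mx_inl (hy : Pt y) (w : InfinitePlace K) :
    w.mult * (k * Real.log 2) + mx (Sum.inl w : Pl K) y ≤
      mx (Sum.inl w : Pl K) ((2 : K) ^ k * y) + gd (Sum.inl w : Pl K) y := by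
  have h1 : lg (Sum.inl w : Pl K) (L 0 ((2 : K) ^ k * y)) ≤ mx (Sum.inl w : Pl K) ((2 : K) ^ k * y) := by
    unfold lg mx
    refine mul_le_mul_of_nonneg_left ?_ (Pool.Agent.TH876.Loc.mt_pos _).le
    refine Real.log_le_log ((Pool.Agent.TH876.Loc.av _).pos ?_) (av_L_le _ _ 0)
    show (2 : K) ^ k * y ≠ 0
    exact mul_ne_zero (pow_ne_zero _ two_ne') hy.1
  have h2 : lg (Sum.inl w : Pl K) (L 0 ((2 : K) ^ k * y)) =
      w.mult * (k * Real.log 2) + lg (Sum.inl w : Pl K) (L 0 y) := by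
    show lg (Sum.inl w : Pl K) ((2 : K) ^ k * y) = _ + lg (Sum.inl w : Pl K) y
    rw [lg_mul _ (pow_ne_zero _ two_ne') hy.1, lg_inl_two]
  have h3 := df_le_gd (Sum.inl w : Pl K) 0 hy
  unfold df at h3
  linarith

variable (K) in
/-- the degree times `log 2` -/
noncomputable def A : ℝ := (Module.finrank ℚ K : ℝ) * Real.log 2

theorem A_pos : 0 < A K := by
  unfold A
  have h : (0 : ℝ) < Module.finrank ℚ K := by exact_mod_cast (Module.finrank_pos (R := ℚ) (M := K))
  have h2 : 0 < Real.log 2 := Real.log_pos (by norm_num)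
  positivity

theorem sum_mult_log (c : ℝ) : ∑ w : InfinitePlace K, (w.mult : ℝ) * (c * Real.log 2) = c * A K := by
  rw [← Finset.sum_mul, sum_mult]
  unfold A
  ring

/-- the height of the twist -/
theorem hgt_twist (hy : Pt y) (hx : Pt ((2 : K) ^ k * y)) :
    hgt ((2 : K) ^ k * y) ≤ hgt y + (k + 1) * A K ∧
    hgt y + k * A K ≤ hgt ((2 : K) ^ k * y) + (3 * hgt y - Real.log (nn (sp y))) + A2 K := by
  classical
  set x := (2 : K) ^ k * y with hxd
  set V : Finset (Pr K) := sp x ∪ sp y ∪ S2 K with hV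
  have hVx : sp x ⊆ V := Finset.subset_union_left.trans Finset.subset_union_left
  have hVy : sp y ⊆ V := Finset.subset_union_right.trans Finset.subset_union_left
  have hVS : S2 K ⊆ V := Finset.subset_union_right
  have e1 := hgt_eq hx hVx
  have e2 := hgt_eq hy hVy
  rw [sum_Spl] at e1 e2
  constructor
  · have h1 := Finset.sum_le_sum fun (w : InfinitePlace K) (_ : w ∈ Finset.univ) =>
      mx_inl_le (y := y) (k := k) w
    rw [Finset.sum_add_distrib, sum_mult_log] at h1
    have h2 := Finset.sum_le_sum fun (v : Pr K) (_ : v ∈ V) => mx_inr_le (y := y) (k := k) v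
    linarith
  · have h1 := Finset.sum_le_sum fun (w : InfinitePlace K) (_ : w ∈ Finset.univ) =>
      le_mx_inl (k := k) hy w
    rw [Finset.sum_add_distrib, Finset.sum_add_distrib, sum_mult_log] at h1
    have h2 : ∑ v ∈ V, mx (Sum.inr v : Pl K) y ≤ ∑ v ∈ V, mx (Sum.inr v : Pl K) x +
        ∑ v ∈ S2 K, gd (Sum.inr v : Pl K) y := by
      rw [← Finset.sum_sdiff hVS, ← Finset.sum_sdiff hVS (f := fun v => mx (Sum.inr v : Pl K) x)]
      have h3 : ∑ v ∈ V \ S2 K, mx (Sum.inr v : Pl K) y = ∑ v ∈ V \ S2 K, mx (Sum.inr v : Pl K) x :=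
        Finset.sum_congr rfl fun v hv => (mx_inr_eq (Finset.mem_sdiff.1 hv).2).symm
      have h4 : 0 ≤ ∑ v ∈ S2 K, mx (Sum.inr v : Pl K) x :=
        Finset.sum_nonneg fun v _ => mx_nonneg _ _
      have h5 : ∑ v ∈ S2 K, mx (Sum.inr v : Pl K) y ≤ ∑ v ∈ S2 K, gd (Sum.inr v : Pl K) y :=
        Finset.sum_le_sum fun v _ => mx_le_gd _ hy
      linarith
    have h3 := gd_S_le hy
    linarith

/-- the radical of the twist -/
theorem rad_twist (hy : Pt y) (hx : Pt ((2 : K) ^ k * y)) :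
    Real.log (nn (sp ((2 : K) ^ k * y))) ≤ A2 K + 2 * hgt y + hgt ((2 : K) ^ k * y) := by
  classical
  set x := (2 : K) ^ k * y with hxd
  set V : Finset (Pr K) := sp x ∪ sp y ∪ S2 K with hV
  have hVx : sp x ⊆ V := Finset.subset_union_left.trans Finset.subset_union_left
  have hVy : sp y ⊆ V := Finset.subset_union_right.trans Finset.subset_union_left
  have hVS : S2 K ⊆ V := Finset.subset_union_right
  have key : ∀ v ∈ V, (if v ∈ sp x then Real.log (Nv v) else 0) ≤
      (if v ∈ S2 K then Real.log (Nv v) else 0) + df (Sum.inr v : Pl K) 0 y +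
        df (Sum.inr v : Pl K) 1 y + df (Sum.inr v : Pl K) 2 x := by
    intro v _
    have n0 := df_nonneg (Sum.inr v : Pl K) 0 hy
    have n1 := df_nonneg (Sum.inr v : Pl K) 1 hy
    have n2 := df_nonneg (Sum.inr v : Pl K) 2 hx
    have hN := log_Nv_pos' v
    by_cases h1 : v ∈ S2 K
    · rw [if_pos h1]
      split_ifs <;> linarith
    rw [if_neg h1]
    by_cases h2 : v ∈ sp x
    swap
    · rw [if_neg h2]
      linarith
    rw [if_pos h2]
    by_contra hcon
    rw [not_le] at hcon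
    have z0 : df (Sum.inr v : Pl K) 0 y = 0 := by
      by_contra h
      have := log_le_df hy (lt_of_le_of_ne n0 (Ne.symm h))
      linarith
    have z1 : df (Sum.inr v : Pl K) 1 y = 0 := by
      by_contra h
      have := log_le_df hy (lt_of_le_of_ne n1 (Ne.symm h))
      linarith
    have z2 : df (Sum.inr v : Pl K) 2 x = 0 := by
      by_contra h
      have := log_le_df hx (lt_of_le_of_ne n2 (Ne.symm h))
      linarith
    have l1 : lg (Sum.inr v : Pl K) (L 1 y) = 0 := lg_one _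
    unfold df at z0 z1 z2
    rw [l1, sub_zero] at z1
    rw [z1, zero_sub, neg_eq_zero] at z0
    have f0 : fv v y = 1 := by
      have h3 : 1 * Real.log (fv v y) = 0 := z0
      rw [one_mul] at h3
      have h4 : 0 < fv v y := (fv v).pos hy.1
      exact Real.eq_one_of_pos_of_log_eq_zero h4 h3
    have f1 : fv v x = 1 := by
      rw [hxd, fv_twist h1, f0]
    have f2 : mx (Sum.inr v : Pl K) x = 0 := by
      show 1 * Real.log (M (Sum.inr v : Pl K) x) = 0
      rw [M_inr, f1, max_self, Real.log_one, mul_zero]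
    rw [f2, zero_sub, neg_eq_zero] at z2
    have f3 : fv v (x + 1) = 1 := by
      have h3 : 1 * Real.log (fv v (L 2 x)) = 0 := z2
      rw [one_mul, fv_L_two] at h3
      have h4 : 0 < fv v (x + 1) := (fv v).pos hx.2
      exact Real.eq_one_of_pos_of_log_eq_zero h4 h3
    exact ((mem_sp hx v).1 h2) ⟨f1, f3⟩
  have s1 := Finset.sum_le_sum key
  rw [Finset.sum_add_distrib, Finset.sum_add_distrib, Finset.sum_add_distrib] at s1
  have s2 : ∑ v ∈ V, (if v ∈ sp x then Real.log (Nv v) else 0) = Real.log (nn (sp x)) := by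
    rw [log_nn, Finset.sum_ite_mem, Finset.inter_eq_right.2 hVx]
  have s3 : ∑ v ∈ V, (if v ∈ S2 K then Real.log (Nv v) else 0) = A2 K := by
    unfold A2
    rw [Finset.sum_ite_mem, Finset.inter_eq_right.2 hVS]
  have t0 := sum_df hy hVy 0
  have t1 := sum_df hy hVy 1
  have t2 := sum_df hx hVx 2
  rw [sum_Spl] at t0 t1 t2
  have u0 : 0 ≤ ∑ w : InfinitePlace K, df (Sum.inl w : Pl K) 0 y :=
    Finset.sum_nonneg fun w _ => df_nonneg _ _ hy
  have u1 : 0 ≤ ∑ w : InfinitePlace K, df (Sum.inl w : Pl K) 1 y :=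
    Finset.sum_nonneg fun w _ => df_nonneg _ _ hy
  have u2 : 0 ≤ ∑ w : InfinitePlace K, df (Sum.inl w : Pl K) 2 x :=
    Finset.sum_nonneg fun w _ => df_nonneg _ _ hx
  rw [s2, s3] at s1
  linarith

end Pool.Agent.T6.H44.HOE
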