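import Mathlib
import Pool.Agent.T6.H44.HOE.Twist
import Pool.Agent.R365.SH.Three
import Pool.Agent.Y668.EX.Main
import Pool.Agent.Results.MP_a793bb_nt.ExceptionsAtEveryLevel

/-!
# The number of exceptional points of bounded height: lower bound
-/

set_option autoImplicit false

namespace Pool.Agent.T6.H44.HOE

open Filter Topology
open Finset NumberField IsDedekindDomain Pool.Agent.H691R3 Pool.Agent.TH876.Loc
open Pool.Agent.W223.AK (H3 R3 H3_bounds)
open Pool.Agent.R365.RC (z3 z3_one z3_sum z3_div H3_eq R3_eq_z α3)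
open Pool.Agent.R365.SH (α3_ne α3_wg off_iff R3_eq_NTc low_all all_upper)
open Pool.Agent.Y728.AK (height3 height3_eq radT_eq)
open Pool.Agent.Y728 (radT)
open Pool.Agent.Results.MP_a793bb_nt.ExceptionsAtEveryLevel (height rad F Exceptions)

variable {K : Type} [Field K] [NumberField K]

theorem dpos (K : Type) [Field K] [NumberField K] : (0 : ℝ) < Module.finrank ℚ K := by
  exact_mod_cast Module.finrank_pos

theorem z3_ne (y : K) : z3 y ≠ 0 := by
  intro h
  have := congrFun h 1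
  rw [z3_one] at this
  exact one_ne_zero this

theorem z3_prod {y : K} (hy : Pt y) : z3 y 0 * z3 y 1 * z3 y 2 ≠ 0 := by
  show y * 1 * -(y + 1) ≠ 0
  exact mul_ne_zero (mul_ne_zero hy.1 one_ne_zero) (neg_ne_zero.mpr hy.2)

theorem H3_z3 {y : K} (hy : Pt y) : H3 (z3 y) = hgt y := by
  have h := height3_eq (z3_sum y) (z3_prod hy)
  rw [z3_div] at h
  rw [← h]
  exact (mul_div_cancel₀ _ (dpos K).ne').symm

theorem R3_z3 (T : Finset (Pr K)) [DecidableEq (Pr K)] {y : K} (hy : Pt y) :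
    R3 (T : Set (Pr K)) (z3 y) = Real.log (nn (sp y \ T)) := by
  have h := radT_eq T (z3_sum y) (z3_prod hy)
  rw [z3_div] at h
  have h1 : (Module.finrank ℚ K : ℝ) * radT (T : Set (Pr K)) (z3 y) = R3 (T : Set (Pr K)) (z3 y) :=
    mul_div_cancel₀ _ (dpos K).ne'
  rw [← h1, h]
  congr 3
  congr
  exact Subsingleton.elim _ _

theorem R3_empty {y : K} (hy : Pt y) : R3 (∅ : Set (Pr K)) (z3 y) = Real.log (nn (sp y)) := by
  classical
  have h := R3_z3 (∅ : Finset (Pr K)) hy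
  rw [Finset.coe_empty, Finset.sdiff_empty] at h
  exact h

/-- a positive proportion of the points has a bounded defect -/
theorem good (K : Type) [Field K] [NumberField K] : ∃ c C₀ Λ₀ : ℝ, 0 < c ∧ 0 ≤ C₀ ∧
    ∀ Λ : ℝ, Λ₀ ≤ Λ → ∃ E : Finset K,
      (∀ x ∈ E, Pt x ∧ Real.log (nn (sp x)) ≤ Λ ∧ 3 * hgt x - Real.log (nn (sp x)) ≤ C₀) ∧
      c * Real.exp (2 / 3 * Λ) ≤ E.card := by
  classical
  obtain ⟨d, hd⟩ : ∃ d : ℝ, d = (Module.finrank ℚ K : ℝ) := ⟨_, rfl⟩
  have hdpos : 0 < d := by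
    rw [hd]
    exact dpos K
  obtain ⟨c₁, X₀, hc₁, hX₀, hl⟩ := low_all (K := K) (q := 3) le_rfl (∅ : Set (Pr K)) (α3 K) α3_ne
    α3_wg
  obtain ⟨C, ν, hC, hν, hup⟩ := all_upper (K := K) (q := 3) le_rfl (∅ : Set (Pr K))
    Set.finite_empty (α3 K) α3_ne α3_wg (1 / 6) (by norm_num) (by norm_num)
  have hlim : Tendsto (fun u : ℝ => C * Real.exp (-u)) atTop (𝓝 0) := by
    have := (Real.tendsto_exp_neg_atTop_nhds_zero).const_mul C
    rwa [mul_zero] at this
  obtain ⟨u₀, hu₀⟩ := eventually_atTop.1 (hlim.eventually (eventually_le_nhds (by positivity :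
    (0 : ℝ) < c₁ / 4)))
  obtain ⟨t₀, ht₀, ht₁⟩ : ∃ t₀ : ℝ, 0 ≤ t₀ ∧ C * Real.exp (-(1 / 6 * t₀)) ≤ c₁ / 4 := by
    refine ⟨6 * max u₀ 0, by positivity, hu₀ _ ?_⟩
    have := le_max_left u₀ 0
    linarith
  have hloss := lossK_nonneg K
  refine ⟨c₁ / 2, t₀ + 3 * lossK K, max (max (u₀ / ν) (d * Real.log X₀)) 0, by positivity,
    by positivity, fun Λ hΛ => ?_⟩
  have hΛ0 : 0 ≤ Λ := (le_max_right _ _).trans hΛ
  have hΛ1 : u₀ / ν ≤ Λ := (le_max_left _ _).trans ((le_max_left _ _).trans hΛ)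
  have hΛ2 : d * Real.log X₀ ≤ Λ := (le_max_right _ _).trans ((le_max_left _ _).trans hΛ)
  have hX0 : 0 < X₀ := by linarith
  obtain ⟨E, hE, hcard⟩ := hl (Real.exp (Λ / d)) (by
    rw [← Real.log_le_iff_le_exp hX0, le_div_iff₀ hdpos]
    linarith)
  rw [Real.log_exp, ← hd] at hE
  have e0 : d * (Λ / d) = Λ := mul_div_cancel₀ _ hdpos.ne'
  rw [e0] at hE
  set E1 := E.filter (fun x => 3 * hr (aff x) - NTc (∅ : Set (Pr K)) (α3 K) x < t₀) with hE1
  set E2 := E.filter (fun x => ¬ 3 * hr (aff x) - NTc (∅ : Set (Pr K)) (α3 K) x < t₀) with hE2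
  have hsplit : (E.card : ℝ) = (E1.card : ℝ) + (E2.card : ℝ) := by
    have := Finset.card_filter_add_card_filter_not (s := E)
      (fun x => 3 * hr (aff x) - NTc (∅ : Set (Pr K)) (α3 K) x < t₀)
    exact_mod_cast this.symm
  have h2 := hup Λ t₀ hΛ0 E2 (by
    intro x hx
    rw [hE2, Finset.mem_filter, not_lt] at hx
    obtain ⟨g1, g2, g3⟩ := hE x hx.1
    exact ⟨g1, g2, by push_cast; exact hx.2⟩)
  push_cast at h2 hcard
  have e1 : Real.exp (Λ / d) ^ (2 / 3 * (Module.finrank ℚ K : ℝ)) = Real.exp (2 / 3 * Λ) := by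
    rw [← Real.exp_mul, ← hd]
    congr 1
    field_simp
  rw [e1] at hcard
  have e2 : Real.exp (2 / 3 * Λ - 1 / 6 * t₀) = Real.exp (2 / 3 * Λ) * Real.exp (-(1 / 6 * t₀)) := by
    rw [← Real.exp_add]
    rfl
  have e3 : Real.exp ((2 / 3 - ν) * Λ) = Real.exp (2 / 3 * Λ) * Real.exp (-(ν * Λ)) := by
    rw [← Real.exp_add]
    congr 1
    ring
  have e4 : C * Real.exp (-(ν * Λ)) ≤ c₁ / 4 := by
    apply hu₀
    rw [div_le_iff₀ hν] at hΛ1
    linarith
  rw [e2, e3] at h2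
  have e5 : 0 < Real.exp (2 / 3 * Λ) := Real.exp_pos _
  have e6 := mul_le_mul_of_nonneg_left ht₁ e5.le
  have e7 := mul_le_mul_of_nonneg_left e4 e5.le
  refine ⟨E1, fun x hx => ?_, ?_⟩
  · rw [hE1, Finset.mem_filter] at hx
    obtain ⟨g1, g2, _⟩ := hE x hx.1
    have hpt : Pt x := (off_iff x).mp g1
    have hN := R3_eq_NTc (∅ : Set (Pr K)) Set.finite_empty g1
    rw [R3_empty hpt] at hN
    have hb := (H3_bounds (x := z3 x) (by rw [z3_one]; exact one_ne_zero) (z3_sum x)).2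
    rw [z3_div, H3_z3 hpt] at hb
    have hb' : hgt x ≤ hr (aff x) + lossK K := hb
    refine ⟨hpt, by rw [hN]; exact g2, ?_⟩
    rw [hN]
    have := hx.2
    linarith
  · have e8 : C * (Real.exp (2 / 3 * Λ) * Real.exp (-(1 / 6 * t₀)) +
        Real.exp (2 / 3 * Λ) * Real.exp (-(ν * Λ))) =
        Real.exp (2 / 3 * Λ) * (C * Real.exp (-(1 / 6 * t₀))) +
          Real.exp (2 / 3 * Λ) * (C * Real.exp (-(ν * Λ))) := by ring
    rw [e8] at h2
    linarith

/-- the exceptions of height at most `B` from points of the line -/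
theorem lower_exc (T : Set (Pr K)) (hT : T.Finite) {t c₀ B : ℝ} (ht0 : 0 < t) (ht3 : t ≤ 3)
    (hB : 1 ≤ B) (G : Finset K)
    (hG : ∀ z ∈ G, Pt z ∧ hgt z ≤ Module.finrank ℚ K * Real.log B ∧
      Real.log (nn (sp z)) ≤ t * hgt z + Module.finrank ℚ K * c₀) :
    (G.card : ℝ) ≤ ((Exceptions T t c₀ B).ncard : ℝ) := by
  classical
  obtain ⟨T', rfl⟩ : ∃ T' : Finset (Pr K), T = (T' : Set (Pr K)) := ⟨hT.toFinset, by simp⟩
  have hd := dpos K
  have hB0 : 0 < B := by linarith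
  obtain ⟨_, hfin'⟩ := Pool.Agent.Results.MP_a793bb_nt.ExceptionsAtEveryLevel.result K
    (T' : Set (Pr K)) hT t c₀ 1 ht0 ht3 one_pos
  have hfin := (hfin' B hB).1
  set f : K → Projectivization K (Fin 3 → K) := fun y => Projectivization.mk K (z3 y) (z3_ne y)
    with hf
  have hfinj : Function.Injective f := by
    intro y y' h
    simp only [hf] at h
    rw [Projectivization.mk_eq_mk_iff'] at h
    obtain ⟨a, ha⟩ := h
    have h1 := congrFun ha 1
    have h0 := congrFun ha 0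
    rw [Pi.smul_apply, smul_eq_mul] at h0 h1
    rw [z3_one, z3_one, mul_one] at h1
    rw [h1, one_mul] at h0
    exact h0.symm
  have hsub : f '' (G : Set K) ⊆ Exceptions (T' : Set (Pr K)) t c₀ B := by
    rintro P ⟨z, hz, rfl⟩
    obtain ⟨hpt, h2, h3⟩ := hG z hz
    have a1 : (Module.finrank ℚ K : ℝ) * height (z3 z) = hgt z := by
      rw [← H3_z3 hpt]
      exact mul_div_cancel₀ _ hd.ne'
    have a2 : (Module.finrank ℚ K : ℝ) * rad (T' : Set (Pr K)) (z3 z) =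
        Real.log (nn (sp z \ T')) := by
      rw [← R3_z3 T' hpt]
      exact mul_div_cancel₀ _ hd.ne'
    have a3 : Real.log (nn (sp z \ T')) ≤ Real.log (nn (sp z)) :=
      Real.log_le_log (nn_pos _) (nn_mono Finset.sdiff_subset)
    refine ⟨z3 z, z3_ne z, rfl, z3_sum z, z3_prod hpt, ?_, ?_⟩
    · rw [← Real.le_log_iff_exp_le hB0]
      refine le_of_mul_le_mul_left ?_ hd
      rw [a1]
      exact h2
    · refine le_of_mul_le_mul_left ?_ hd
      rw [a2]
      have e : (Module.finrank ℚ K : ℝ) * (t * height (z3 z) + c₀) =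
          t * (Module.finrank ℚ K * height (z3 z)) + Module.finrank ℚ K * c₀ := by ring
      rw [e, a1]
      linarith
  have h3 : (f '' (G : Set K)).ncard ≤ (Exceptions (T' : Set (Pr K)) t c₀ B).ncard :=
    Set.ncard_le_ncard hsub hfin
  rw [Set.ncard_image_of_injective _ hfinj, Set.ncard_coe_finset] at h3
  exact_mod_cast h3

/-- the lower bound -/
theorem lower (T : Set (Pr K)) (hT : T.Finite) {t c₀ : ℝ} (ht1 : 1 < t) (ht3 : t ≤ 3) :
    ∃ c B₀ : ℝ, 0 < c ∧ ∀ B : ℝ, B₀ ≤ B →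
      c * B ^ ((Module.finrank ℚ K : ℝ) * (t - 1)) ≤ ((Exceptions T t c₀ B).ncard : ℝ) := by
  classical
  have hd := dpos K
  obtain ⟨d, hdd⟩ : ∃ d : ℝ, d = (Module.finrank ℚ K : ℝ) := ⟨_, rfl⟩
  rw [← hdd] at hd
  obtain ⟨c, C₀, Λ₀, hc, hC₀, hgood⟩ := good K
  have hA := A_pos (K := K)
  have hA2 := A2_nonneg (K := K)
  obtain ⟨C₅, hC₅⟩ : ∃ C₅ : ℝ, C₅ = 2 * (2 * A K + C₀ + A2 K) + A2 K + |d * c₀| := ⟨_, rfl⟩
  have habs := abs_nonneg (d * c₀)
  have hC₅A : 4 * A K ≤ C₅ := by rw [hC₅]; linarith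
  have ht : 0 < t - 1 := by linarith
  obtain ⟨X₁, hX₁⟩ : ∃ X₁ : ℝ, X₁ = (2 / 3 * (max Λ₀ (3 / c) + C₀) + C₅) / (t - 1) := ⟨_, rfl⟩
  refine ⟨c / 2 * Real.exp (-C₅ - 2 / 3 * C₀), Real.exp (max X₁ 0 / d), by positivity,
    fun B hB => ?_⟩
  have hB1 : 1 ≤ B := (Real.one_le_exp (by positivity)).trans hB
  have hB0 : 0 < B := by linarith
  obtain ⟨X, hX⟩ : ∃ X : ℝ, X = d * Real.log B := ⟨_, rfl⟩
  have hXX : max X₁ 0 ≤ X := by
    have h2 := (Real.le_log_iff_exp_le hB0).2 hB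
    rw [div_le_iff₀ hd] at h2
    rw [hX]
    linarith
  have hX0 : 0 ≤ X := (le_max_right _ _).trans hXX
  have hX1 : X₁ ≤ X := (le_max_left _ _).trans hXX
  obtain ⟨H, hH⟩ : ∃ H : ℝ, H = ((t - 1) * X - C₅) / 2 := ⟨_, rfl⟩
  obtain ⟨Λ, hΛ⟩ : ∃ Λ : ℝ, Λ = 3 * H - C₀ := ⟨_, rfl⟩
  have hΛm : max Λ₀ (3 / c) ≤ Λ := by
    rw [hX₁, div_le_iff₀ ht] at hX1
    rw [hΛ, hH]
    linarith
  have hΛ0 : Λ₀ ≤ Λ := (le_max_left _ _).trans hΛm
  have hΛ1 : 3 / c ≤ Λ := (le_max_right _ _).trans hΛm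
  obtain ⟨E, hE, hcard⟩ := hgood Λ hΛ0
  -- the power of two
  have hXH : 2 * (X - H) = (3 - t) * X + C₅ := by rw [hH]; ring
  have h3t : 0 ≤ (3 - t) * X := mul_nonneg (by linarith) hX0
  have hXH' : 2 * A K ≤ X - H := by linarith
  obtain ⟨k, hk1, hk2⟩ : ∃ k : ℕ, ((k : ℝ) + 1) * A K ≤ X - H ∧ X - H ≤ ((k : ℝ) + 2) * A K := by
    refine ⟨⌊(X - H) / A K - 1⌋₊, ?_, ?_⟩
    · have h1 : 0 ≤ (X - H) / A K - 1 := by
        rw [sub_nonneg, le_div_iff₀ hA]
        linarith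
      have h2 := Nat.floor_le h1
      rw [le_sub_iff_add_le, le_div_iff₀ hA] at h2
      exact h2
    · have h2 := (Nat.lt_floor_add_one ((X - H) / A K - 1)).le
      rw [sub_le_iff_le_add, div_le_iff₀ hA] at h2
      have e : ((⌊(X - H) / A K - 1⌋₊ : ℝ) + 1 + 1) * A K =
          ((⌊(X - H) / A K - 1⌋₊ : ℝ) + 2) * A K := by ring
      rw [e] at h2
      exact h2
  -- the points
  set E' := E.filter (fun y => (2 : K) ^ k * y + 1 ≠ 0) with hE'
  have h2k : (2 : K) ^ k ≠ 0 := pow_ne_zero _ two_ne'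
  have hcard' : (E.card : ℝ) ≤ (E'.card : ℝ) + 1 := by
    have h1 := Finset.card_filter_add_card_filter_not (s := E)
      (fun y => (2 : K) ^ k * y + 1 ≠ 0)
    have h2 : (E.filter (fun y => ¬ ((2 : K) ^ k * y + 1 ≠ 0))).card ≤ 1 := by
      rw [Finset.card_le_one]
      intro a ha b hb
      have h3 := (Finset.mem_filter.1 ha).2
      have h4 := (Finset.mem_filter.1 hb).2
      rw [not_not] at h3 h4
      have h5 : (2 : K) ^ k * a = (2 : K) ^ k * b := by linear_combination h3 - h4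
      exact mul_left_cancel₀ h2k h5
    have h3 : E.card ≤ E'.card + 1 := by
      rw [← h1]
      exact Nat.add_le_add_left h2 _
    exact_mod_cast h3
  have hinj : Function.Injective (fun y : K => (2 : K) ^ k * y) := fun a b h =>
    mul_left_cancel₀ h2k h
  have hmain := lower_exc T hT (t := t) (c₀ := c₀) (by linarith) ht3 hB1
    (E'.image (fun y : K => (2 : K) ^ k * y)) (by
      intro x hx
      obtain ⟨y, hy, rfl⟩ := Finset.mem_image.1 hx
      rw [hE', Finset.mem_filter] at hy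
      obtain ⟨hy1, hy2⟩ := hy
      obtain ⟨hpt, g1, g2⟩ := hE y hy1
      have hptx : Pt ((2 : K) ^ k * y) := ⟨mul_ne_zero h2k hpt.1, hy2⟩
      obtain ⟨k1, k2⟩ := hgt_twist hpt hptx
      have k3 := rad_twist hpt hptx
      have k4 : hgt y ≤ H := by linarith
      refine ⟨hptx, ?_, ?_⟩
      · rw [← hdd, ← hX]
        linarith
      · rw [← hdd]
        have k5 : (t - 1) * (hgt y + X - H - 2 * A K - C₀ - A2 K) ≤
            (t - 1) * hgt ((2 : K) ^ k * y) := by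
          refine mul_le_mul_of_nonneg_left ?_ ht.le
          linarith
        have k6 : (3 - t) * hgt y ≤ (3 - t) * H := mul_le_mul_of_nonneg_left k4 (by linarith)
        have k7 : (t - 1) * (2 * A K + C₀ + A2 K) ≤ 2 * (2 * A K + C₀ + A2 K) :=
          mul_le_mul_of_nonneg_right (by linarith) (by linarith)
        have k8 := neg_abs_le (d * c₀)
        have k9 : 2 * H = (t - 1) * X - C₅ := by rw [hH]; ring
        rw [hC₅] at k9
        nlinarith)
  rw [Finset.card_image_of_injective _ hinj] at hmain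
  have e1 : B ^ ((Module.finrank ℚ K : ℝ) * (t - 1)) = Real.exp ((t - 1) * X) := by
    rw [Real.rpow_def_of_pos hB0, ← hdd, hX]
    congr 1
    ring
  have e2 : Real.exp (2 / 3 * Λ) = Real.exp (-C₅ - 2 / 3 * C₀) * Real.exp ((t - 1) * X) := by
    rw [← Real.exp_add, hΛ, hH]
    congr 1
    ring
  have e3 : 1 ≤ c / 2 * Real.exp (2 / 3 * Λ) := by
    have h1 := Real.add_one_le_exp (2 / 3 * Λ)
    rw [div_le_iff₀ hc] at hΛ1
    nlinarith
  rw [e1]
  have e4 : c / 2 * Real.exp (-C₅ - 2 / 3 * C₀) * Real.exp ((t - 1) * X) =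
      c / 2 * Real.exp (2 / 3 * Λ) := by
    rw [e2]
    ring
  rw [e4]
  linarith

theorem F_eq {t : ℝ} (ht : 2 ≤ t) : F t = t - 1 := by
  unfold F
  rw [if_neg (by linarith), if_neg (by linarith), if_neg (by linarith), if_neg (by linarith),
    if_neg (by linarith)]
  split_ifs with h
  · linarith
  · rfl

/-- the exponent -/
theorem exponent (T : Set (Pr K)) (hT : T.Finite) {t c₀ : ℝ} (ht2 : 2 ≤ t) (ht3 : t ≤ 3) :
    Tendsto (fun B : ℝ => Real.log ((Exceptions T t c₀ B).ncard : ℝ) / Real.log B) atTop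
      (𝓝 ((Module.finrank ℚ K : ℝ) * (t - 1))) := by
  refine Pool.Agent.Y668.EX.tendsto_exponent (fun ε hε => ?_) (fun ε hε => ?_)
  · obtain ⟨C, hC⟩ := Pool.Agent.Results.MP_a793bb_nt.ExceptionsAtEveryLevel.result K T hT t c₀ ε
      (by linarith) ht3 hε
    refine ⟨|C| + 1, by positivity, fun X hX => ?_⟩
    refine (hC X hX).2.trans ?_
    rw [F_eq ht2]
    have hX0 : 0 < X := by linarith
    refine mul_le_mul_of_nonneg_right ?_ (by positivity)
    have := le_abs_self C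
    linarith
  · obtain ⟨c, B₀, hc, h⟩ := lower T hT (c₀ := c₀) (by linarith : 1 < t) ht3
    have hlim : Tendsto (fun u : ℝ => c * u ^ ε) atTop atTop :=
      (tendsto_rpow_atTop hε).const_mul_atTop hc
    obtain ⟨B₁, hB₁⟩ := eventually_atTop.1 (hlim.eventually (eventually_ge_atTop 1))
    refine ⟨max (max B₀ B₁) 1, fun X hX => ?_⟩
    have h0 : B₀ ≤ X := (le_max_left _ _).trans ((le_max_left _ _).trans hX)
    have h1 : B₁ ≤ X := (le_max_right _ _).trans ((le_max_left _ _).trans hX)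
    have h2 : 1 ≤ X := (le_max_right _ _).trans hX
    have h3 : 0 < X := by linarith
    refine le_trans ?_ (h X h0)
    have h4 := hB₁ X h1
    have h5 : X ^ ((Module.finrank ℚ K : ℝ) * (t - 1)) =
        X ^ ((Module.finrank ℚ K : ℝ) * (t - 1) - ε) * X ^ ε := by
      rw [← Real.rpow_add h3]
      congr 1
      ring
    rw [h5]
    have h6 : 0 ≤ X ^ ((Module.finrank ℚ K : ℝ) * (t - 1) - ε) := by positivity
    nlinarith

end Pool.Agent.T6.H44.HOE
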